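import Mathlib

set_option autoImplicit false

namespace Pool.Agent.H.MP_85b484_co
open SimpleGraph

def eB (u v : Fin 13) : Bool :=
  u.val < v.val && ((v.val ≤ u.val + 2 && !(u.val % 3 == 2 && v.val == u.val + 2)) ||
    (u.val == 0 && v.val == 12))

def aB (u v : Fin 13) : Bool := eB u v || eB v u

def G : SimpleGraph (Fin 13) where
  Adj u v := aB u v = true
  symm := ⟨fun u v h => by simpa [aB, or_comm] using h⟩
  loopless := ⟨fun u h => by simp [aB, eB] at h⟩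

instance : DecidableRel G.Adj := fun u v => inferInstanceAs (Decidable (aB u v = true))

abbrev T := Fin 13 × Fin 13 × Fin 13

def L : List T := [(0, 0, 0), (0, 1, 1), (0, 1, 2), (0, 1, 3), (0, 1, 12), (0, 2, 2), (0, 2, 3), (0, 2, 12),
  (0, 10, 12), (0, 11, 12), (0, 12, 12), (1, 1, 1), (1, 2, 2), (1, 2, 3), (1, 3, 3), (1, 3, 4),
  (1, 3, 5), (2, 2, 2), (2, 3, 3), (2, 3, 4), (2, 3, 5), (3, 3, 3), (3, 4, 4), (3, 4, 5),
  (3, 4, 6), (3, 5, 5), (3, 5, 6), (4, 4, 4), (4, 5, 5), (4, 5, 6), (4, 6, 6), (4, 6, 7),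
  (4, 6, 8), (5, 5, 5), (5, 6, 6), (5, 6, 7), (5, 6, 8), (6, 6, 6), (6, 7, 7), (6, 7, 8),
  (6, 7, 9), (6, 8, 8), (6, 8, 9), (7, 7, 7), (7, 8, 8), (7, 8, 9), (7, 9, 9), (7, 9, 10),
  (7, 9, 11), (8, 8, 8), (8, 9, 9), (8, 9, 10), (8, 9, 11), (9, 9, 9), (9, 10, 10), (9, 10, 11),
  (9, 10, 12), (9, 11, 11), (9, 11, 12), (10, 10, 10), (10, 11, 11), (10, 11, 12), (10, 12, 12), (11, 11, 11),
  (11, 12, 12), (12, 12, 12)]

def mem (u : Fin 13) (t : T) : Bool := u == t.1 || u == t.2.1 || u == t.2.2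

def nb (u : Fin 13) (t : T) : Bool := aB u t.1 || aB u t.2.1 || aB u t.2.2

def cp (s t : T) : Bool :=
  !mem s.1 t && !mem s.2.1 t && !mem s.2.2 t && (nb s.1 t || nb s.2.1 t || nb s.2.2 t)

def chk : Bool := L.all fun a => (L.filter (cp a)).all fun b =>
  ((L.filter (cp a)).filter (cp b)).all fun c => ((L.filter (cp a)).filter (cp b)).all fun d => !cp c d

lemma chk_ok : chk = true := by decide +kernel

lemma no4 (a b c d : T) (ha : a ∈ L) (hb : b ∈ L) (hc : c ∈ L) (hd : d ∈ L) (ab : cp a b = true)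
    (ac : cp a c = true) (ad : cp a d = true) (bc : cp b c = true) (bd : cp b d = true)
    (cd : cp c d = true) : False := by
  have := chk_ok
  simp only [chk, List.all_eq_true, List.mem_filter] at this
  have := this a ha b ⟨hb, ab⟩ c ⟨⟨hc, ac⟩, bc⟩ d ⟨⟨hd, ad⟩, bd⟩
  simp [cd] at this

lemma star0 : ∀ x y : Fin 13, (y = x ∨ aB x y = true) → ∀ z : Fin 13, (z = x ∨ aB x z = true) →
    (L.any fun t => mem x t && mem y t && mem z t && mem t.1 (x, y, z) && mem t.2.1 (x, y, z) &&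
      mem t.2.2 (x, y, z)) = true := by decide +kernel

lemma star (x y z : Fin 13) (h1 : y = x ∨ aB x y = true) (h2 : z = x ∨ aB x z = true) :
    ∃ t ∈ L, ∀ u, (u = x ∨ u = y ∨ u = z) ↔ mem u t = true := by
  obtain ⟨t, ht, h⟩ := List.any_eq_true.1 (star0 x y h1 z h2)
  simp only [Bool.and_eq_true] at h
  obtain ⟨⟨⟨⟨⟨a, b⟩, c⟩, d⟩, e⟩, f⟩ := h
  refine ⟨t, ht, fun u => ⟨?_, fun hu => ?_⟩⟩
  · rintro (rfl | rfl | rfl) <;> assumption
  · simp only [mem, Bool.or_eq_true, beq_iff_eq] at hu d e f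
    rw [← or_assoc]
    rcases hu with (rfl | rfl) | rfl <;> assumption

lemma rep (S : Finset (Fin 13)) (h : S.card ≤ 3) (c : (G.induce (S : Set (Fin 13))).Connected) :
    ∃ t ∈ L, ∀ u, u ∈ S ↔ mem u t = true := by
  have nbr : ∀ x ∈ S, ∀ y ∈ S, x ≠ y → ∃ z ∈ S, G.Adj x z := by
    intro x hx y hy xy
    obtain ⟨p⟩ := c.preconnected ⟨x, hx⟩ ⟨y, hy⟩
    obtain ⟨w, e, -⟩ := Walk.exists_eq_cons_of_ne (fun e => xy (congrArg Subtype.val e)) p
    exact ⟨w.1, w.2, e⟩
  have fin : ∀ x y z : Fin 13, (y = x ∨ G.Adj x y) → (z = x ∨ G.Adj x z) →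
      (∀ u, u ∈ S ↔ (u = x ∨ u = y ∨ u = z)) → ∃ t ∈ L, ∀ u, u ∈ S ↔ mem u t = true := by
    intro x y z h1 h2 h3
    obtain ⟨t, ht, h4⟩ := star x y z h1 h2
    exact ⟨t, ht, fun u => (h3 u).trans (h4 u)⟩
  obtain ⟨⟨x0, hx0⟩⟩ := c.nonempty
  have p := Finset.card_pos.2 ⟨x0, hx0⟩
  have : S.card = 1 ∨ S.card = 2 ∨ S.card = 3 := by omega
  rcases this with e | e | e
  · obtain ⟨x, rfl⟩ := Finset.card_eq_one.1 e
    exact fin x x x (.inl rfl) (.inl rfl) (by simp)
  · obtain ⟨x, y, xy, rfl⟩ := Finset.card_eq_two.1 e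
    obtain ⟨z, hz, a⟩ := nbr x (by simp) y (by simp) xy
    simp only [Finset.mem_insert, Finset.mem_singleton] at hz
    rcases hz with rfl | rfl
    · exact absurd a G.irrefl
    · exact fin x z z (.inr a) (.inr a) (by simp)
  · obtain ⟨x, y, z, xy, xz, yz, rfl⟩ := Finset.card_eq_three.1 e
    obtain ⟨p, hp, a⟩ := nbr x (by simp) y (by simp) xy
    obtain ⟨q, hq, b⟩ := nbr y (by simp) x (by simp) xy.symm
    obtain ⟨r, hr, d⟩ := nbr z (by simp) x (by simp) xz.symm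
    simp only [Finset.mem_insert, Finset.mem_singleton] at hp hq hr
    have k : (G.Adj x y ∧ G.Adj x z) ∨ (G.Adj y x ∧ G.Adj y z) ∨ (G.Adj z x ∧ G.Adj z y) := by
      rcases hp with rfl | rfl | rfl <;> rcases hq with rfl | rfl | rfl <;>
        rcases hr with rfl | rfl | rfl <;>
        first | exact absurd a G.irrefl | exact absurd b G.irrefl | exact absurd d G.irrefl |
          exact .inl ⟨a, d.symm⟩ | exact .inl ⟨b.symm, a⟩ | exact .inr (.inl ⟨a.symm, b⟩) |
          exact .inr (.inl ⟨a.symm, d.symm⟩) | exact .inr (.inr ⟨a.symm, b.symm⟩)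
    rcases k with k | k | k
    · exact fin x y z (.inr k.1) (.inr k.2) (by simp)
    · exact fin y x z (.inr k.1) (.inr k.2) (by simp [or_comm, or_left_comm])
    · exact fin z x y (.inr k.1) (.inr k.2) (by simp [or_comm, or_left_comm])

lemma cp_of (A B : Finset (Fin 13)) (s t : T) (hs : ∀ u, u ∈ A ↔ mem u s = true)
    (ht : ∀ u, u ∈ B ↔ mem u t = true) (h : Disjoint A B ∧ ∃ u ∈ A, ∃ v ∈ B, G.Adj u v) :
    cp s t = true := by
  obtain ⟨d, u, hu, v, hv, e⟩ := h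
  have k : ∀ w, mem w s = true → mem w t = false := fun w hw => by
    have := Finset.disjoint_left.1 d ((hs w).2 hw)
    rw [ht] at this
    simpa using this
  have n : nb u t = true := by
    have := (ht v).1 hv
    have e' : aB u v = true := e
    simp only [mem, nb, Bool.or_eq_true, beq_iff_eq] at this ⊢
    rcases this with (rfl | rfl) | rfl <;> simp [e']
  have := (hs u).1 hu
  simp only [cp, k s.1 (by simp [mem]), k s.2.1 (by simp [mem]), k s.2.2 (by simp [mem])]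
  simp only [mem, Bool.or_eq_true, beq_iff_eq] at this
  rcases this with (rfl | rfl) | rfl <;> simp [n]

lemma col (t : ℕ) (h : (G.induce ((Finset.univ : Finset (Fin 13)) : Set (Fin 13))).Colorable t) :
    4 ≤ t := by
  by_contra ht
  obtain ⟨C⟩ := h.mono (show t ≤ 3 by omega)
  have v : ∀ a b : Fin 13, G.Adj a b → C ⟨a, by simp⟩ ≠ C ⟨b, by simp⟩ := fun a b e => C.valid e
  have k : ∀ a b c d : Fin 3, a ≠ b → a ≠ c → b ≠ c → b ≠ d → c ≠ d → a = d := by decide
  have e1 := k _ _ _ _ (v 0 1 (by decide)) (v 0 2 (by decide)) (v 1 2 (by decide))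
    (v 1 3 (by decide)) (v 2 3 (by decide))
  have e2 := k _ _ _ _ (v 3 4 (by decide)) (v 3 5 (by decide)) (v 4 5 (by decide))
    (v 4 6 (by decide)) (v 5 6 (by decide))
  have e3 := k _ _ _ _ (v 6 7 (by decide)) (v 6 8 (by decide)) (v 7 8 (by decide))
    (v 7 9 (by decide)) (v 8 9 (by decide))
  have e4 := k _ _ _ _ (v 9 10 (by decide)) (v 9 11 (by decide)) (v 10 11 (by decide))
    (v 10 12 (by decide)) (v 11 12 (by decide))
  exact v 0 12 (by decide) (e1.trans (e2.trans (e3.trans e4)))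

def ψ : Fin 13 → Fin 9 := ![0, 1, 1, 2, 3, 3, 4, 5, 5, 6, 7, 7, 8]

lemma twin : ∀ b c : Fin 13, ψ b = ψ c → b = c ∨ (G.Adj b c ∧ ∀ z, G.Adj b z → z = c ∨ G.Adj z c) := by
  decide +kernel

lemma nocyc (n : ℕ) (h9 : 9 < n)
    (hn : ∀ x y, (cycleGraph n).Adj x y → ∃ z, (cycleGraph n).Adj x z ∧ z ≠ y ∧ ¬ (cycleGraph n).Adj z y)
    (φ : cycleGraph n ↪g G) : False := by
  have inj : Function.Injective fun x => ψ (φ x) := by
    intro x y e
    rcases twin _ _ e with a | ⟨a, b⟩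
    · exact φ.injective a
    · obtain ⟨z, z1, z2, z3⟩ := hn x y (φ.map_adj_iff.1 a)
      rcases b _ (φ.map_adj_iff.2 z1) with c | c
      · exact absurd (φ.injective c) z2
      · exact absurd (φ.map_adj_iff.1 c) z3
  have := Fintype.card_le_of_injective _ inj
  simp only [Fintype.card_fin] at this
  omega

lemma free (k : ℕ) (hk : 3 * 3 ≤ 2 * k) : IsEmpty (cycleGraph (2 * k + 1) ↪g G) := by
  refine ⟨fun φ => ?_⟩
  have := Fintype.card_le_of_injective _ φ.injective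
  simp only [Fintype.card_fin] at this
  have : k = 5 ∨ k = 6 := by omega
  rcases this with rfl | rfl
  · refine nocyc 11 (by norm_num) (fun x y h => ⟨x + x - y, ?_⟩) φ
    simp only [cycleGraph_adj'] at h ⊢
    revert x y
    decide +kernel
  · refine nocyc 13 (by norm_num) (fun x y h => ⟨x + x - y, ?_⟩) φ
    simp only [cycleGraph_adj'] at h ⊢
    revert x y
    decide +kernel

end Pool.Agent.H.MP_85b484_co
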